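import Pool.Agent.SGB.Stmts

/-!
# Squad SGB, row ITS: the intersection bound
-/

set_option autoImplicit false

open Finset

namespace Pool.Agent.SGB.H60

open Pool.Agent.SGB

universe u

theorem cd_pos {H : Type u} [AddCommGroup H] [Finite H] (A : AddSubgroup H) : 0 < cd A := by
  unfold cd
  exact_mod_cast Nat.card_pos

theorem cd_bot {H : Type u} [AddCommGroup H] : cd (⊥ : AddSubgroup H) = 1 := by
  unfold cd
  simp

theorem its (quo : QUOStmt.{u}) : ITSStmt.{u} := by
  intro H _ _ m S T X B hm hB hST hX hN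
  have hq := quo H m S T X hm hST hX
  have hN0 : 0 < nn H := by
    unfold nn
    exact_mod_cast Nat.card_pos
  have hlog : ∀ a b, Real.log (kk S T a b) =
      Real.log (cd (S a ⊓ T b)) + Real.log (cd (S b ⊓ T a)) := fun a b =>
    Real.log_mul (cd_pos _).ne' (cd_pos _).ne'
  have h1 : ∑ a, ∑ b, Real.log (kk S T a b) = 2 * ∑ a, ∑ b, Real.log (cd (S a ⊓ T b)) := by
    simp only [hlog, Finset.sum_add_distrib]
    have h2 : ∑ a, ∑ b, Real.log (cd (S b ⊓ T a)) = ∑ a, ∑ b, Real.log (cd (S a ⊓ T b)) :=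
      Finset.sum_comm
    rw [h2]
    ring
  have h2 : ∀ a b, (Real.log (nn H) - Real.log B) -
      (if b = a then (Real.log (nn H) - Real.log B) else 0) ≤ Real.log (kk S T a b) := by
    intro a b
    split_ifs with h
    · subst h
      have h3 : kk S T b b = 1 := by
        unfold kk
        rw [hST, cd_bot, one_mul]
      rw [h3, Real.log_one, sub_self]
    · rw [sub_zero, ← Real.log_div hN0.ne' hB.ne']
      have h4 := hN a b fun he => h he.symm
      refine Real.log_le_log (div_pos hN0 hB) ?_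
      rw [div_le_iff₀ hB]
      linarith
  have h3 : (m : ℝ) * ((m : ℝ) - 1) * (Real.log (nn H) - Real.log B) ≤
      ∑ a, ∑ b, Real.log (kk S T a b) := by
    have h4 : ∑ a : Fin m, ∑ b : Fin m, ((Real.log (nn H) - Real.log B) -
        (if b = a then (Real.log (nn H) - Real.log B) else 0)) =
        (m : ℝ) * ((m : ℝ) - 1) * (Real.log (nn H) - Real.log B) := by
      simp only [Finset.sum_sub_distrib, Finset.sum_const, Finset.card_univ, Fintype.card_fin,
        nsmul_eq_mul, Finset.sum_ite_eq', Finset.mem_univ, if_true]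
      ring
    rw [← h4]
    exact Finset.sum_le_sum fun a _ => Finset.sum_le_sum fun b _ => h2 a b
  have hm0 : (0 : ℝ) < m := by exact_mod_cast hm
  have h5 : (m : ℝ) * ((m : ℝ) - 1) * (Real.log (nn H) - Real.log B) ≤
      2 * ((m : ℝ) ^ 2 / 4 * (Real.log (nn H) - Real.log (cd X))) := by
    rw [h1] at h3
    linarith
  have h6 : 2 * (1 - 1 / (m : ℝ)) * (Real.log (nn H) - Real.log B) ≤
      Real.log (nn H) - Real.log (cd X) := by
    have h7 : 2 * (1 - 1 / (m : ℝ)) * (Real.log (nn H) - Real.log B) =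
        (2 / (m : ℝ) ^ 2) * ((m : ℝ) * ((m : ℝ) - 1) * (Real.log (nn H) - Real.log B)) := by
      field_simp
    have h8 : Real.log (nn H) - Real.log (cd X) =
        (2 / (m : ℝ) ^ 2) * (2 * ((m : ℝ) ^ 2 / 4 * (Real.log (nn H) - Real.log (cd X)))) := by
      field_simp
      ring
    rw [h7, h8]
    exact mul_le_mul_of_nonneg_left h5 (by positivity)
  have h9 : (2 / (m : ℝ) - 1) * Real.log (nn H) + 2 * (1 - 1 / (m : ℝ)) * Real.log B =
      Real.log (nn H) - 2 * (1 - 1 / (m : ℝ)) * (Real.log (nn H) - Real.log B) := by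
    ring
  rw [h9]
  linarith

end Pool.Agent.SGB.H60
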