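import Pool.Agent.SGB.Stmts

/-!
# Squad SGB, row PIN: pair inequalities
-/

set_option autoImplicit false

open Finset

namespace Pool.Agent.SGB.H60

open Pool.Agent.SGB

universe u

theorem pin (crd : CRDStmt.{u}) : PINStmt.{u} := by
  intro H _ _ ι S T hST i j
  obtain ⟨c1, c2, c3, c4, c5⟩ := crd H
  have pos : ∀ A : AddSubgroup H, 0 < cd A := fun A => lt_of_lt_of_le one_pos (c4 A).1
  -- the four basic inequalities
  have a1 : cd (S i ⊓ S j) * cd (S i ⊓ T j) ≤ cd (S i) := c2 (S i) (S j) (T j) (hST j)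
  have a2 : cd (S i ⊓ S j) * cd (S j ⊓ T i) ≤ cd (S j) := by
    have h := c2 (S j) (S i) (T i) (hST i)
    rwa [inf_comm (S j) (S i)] at h
  have a3 : cd (S j ⊓ T i) * cd (T i ⊓ T j) ≤ cd (T i) := by
    have h := c2 (T i) (S j) (T j) (hST j)
    rwa [inf_comm (T i) (S j)] at h
  have a4 : cd (S i ⊓ T j) * cd (T i ⊓ T j) ≤ cd (T j) := by
    have h := c2 (T j) (S i) (T i) (hST i)
    rwa [inf_comm (T j) (S i), inf_comm (T j) (T i)] at h
  have top : ∀ l, cd (S l) * cd (T l) ≤ nn H := by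
    intro l
    have h := c2 ⊤ (S l) (T l) (hST l)
    rw [top_inf_eq, top_inf_eq] at h
    exact h.trans (c4 ⊤).2
  have hz : cd (zz S T i j) = cd (S i ⊓ S j) * cd (S i ⊓ T j) := by
    have h := c1 (S i ⊓ S j) (S i ⊓ T j)
    have h0 : (S i ⊓ S j) ⊓ (S i ⊓ T j) = ⊥ := by
      rw [eq_bot_iff, ← hST j]
      exact inf_le_inf inf_le_right inf_le_right
    rw [h0, c5, one_mul] at h
    exact h
  set s := cd (S i ⊓ S j) with hs
  set x := cd (S i ⊓ T j) with hx
  set y := cd (S j ⊓ T i) with hy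
  set t := cd (T i ⊓ T j) with ht
  have ps : 0 < s := pos _
  have px : 0 < x := pos _
  have py : 0 < y := pos _
  have pt : 0 < t := pos _
  have pSi : 0 < cd (S i) := pos _
  have pSj : 0 < cd (S j) := pos _
  have pTi : 0 < cd (T i) := pos _
  have pTj : 0 < cd (T j) := pos _
  have hkk : kk S T i j = x * y := rfl
  have htt : tt S T i j = s * t := rfl
  have hN : 0 < nn H := lt_of_lt_of_le (mul_pos pSi pTi) (top i)
  refine ⟨?_, ?_, top i, ?_, ?_, ?_, ?_, ?_, ?_, ?_⟩
  · rw [hkk]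
    calc s ^ 2 * (x * y) = (s * x) * (s * y) := by ring
      _ ≤ cd (S i) * cd (S j) := mul_le_mul a1 a2 (by positivity) pSi.le
  · rw [hkk, htt]
    calc x * y * (s * t) = (s * x) * (y * t) := by ring
      _ ≤ cd (S i) * cd (T i) := mul_le_mul a1 a3 (by positivity) pSi.le
  · rw [hkk, htt]
    have h1 : (y * t) * (x * t) ≤ cd (T i) * cd (T j) := mul_le_mul a3 a4 (by positivity) pTi.le
    have h2 : (cd (S i) * cd (T i)) * (cd (S j) * cd (T j)) ≤ nn H * nn H :=
      mul_le_mul (top i) (top j) (by positivity) hN.le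
    calc (s * t) ^ 2 * (x * y) * (cd (S i) * cd (S j))
        = s ^ 2 * (((y * t) * (x * t)) * (cd (S i) * cd (S j))) := by ring
      _ ≤ s ^ 2 * ((cd (T i) * cd (T j)) * (cd (S i) * cd (S j))) :=
          mul_le_mul_of_nonneg_left (mul_le_mul_of_nonneg_right h1 (by positivity)) (by positivity)
      _ = s ^ 2 * ((cd (S i) * cd (T i)) * (cd (S j) * cd (T j))) := by ring
      _ ≤ s ^ 2 * (nn H * nn H) := mul_le_mul_of_nonneg_left h2 (by positivity)
      _ = s ^ 2 * nn H ^ 2 := by ring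
  · rw [hkk, htt, hz]
    calc cd (S i) * (x * y * (s * t)) = (s * x) * (cd (S i) * (y * t)) := by ring
      _ ≤ (s * x) * (cd (S i) * cd (T i)) :=
          mul_le_mul_of_nonneg_left (mul_le_mul_of_nonneg_left a3 pSi.le) (by positivity)
      _ ≤ (s * x) * nn H := mul_le_mul_of_nonneg_left (top i) (by positivity)
  · unfold kk
    ring
  · unfold tt
    rw [inf_comm (S i) (S j), inf_comm (T i) (T j)]
  · rw [hkk]
    exact one_le_mul_of_one_le_of_one_le (c4 _).1 (c4 _).1
  · rw [htt]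
    exact one_le_mul_of_one_le_of_one_le (c4 _).1 (c4 _).1
  · exact sup_le inf_le_left inf_le_left

end Pool.Agent.SGB.H60
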